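import Pool.Agent.H44.FB.Basics

/-!
# fbm_modules, row TPE: the coloured problem
-/

set_option autoImplicit false

namespace Pool.Agent.H68.FB

open Pool.Agent.H68.BP Pool.Agent.H58.SF Pool.Agent.H53.NR
open Pool.Agent.H53.GC (arP relP strOn sigOf)
open Pool.Agent.H53.GR (Ps Dm)
open Pool.Agent.H53.GM (Connected Avoids Val Cols DmG)
open Pool.Agent.H53.GX (FmX)
open Pool.Agent.H57.AR (tp ty Ty)
open Pool.Agent.H57.EQ (Cx)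
open Pool.Agent.H57.SO (fib sigF SF)
open Pool.Agent.H57.LH (SS vs c0 Blind NCB Cor Prs tfL SyL)
open Pool.Agent.H44.KR Pool.Agent.H44.FB
open Function Classical

/-- the tuples of the colour `s` -/
def NCs {V : Type} {ρ : Sig} (𝔹 : Str ρ V) (σ : Sig) (m : ℕ) (B : Set (Fin ρ.m → Prop))
    (s : CI 𝔹 σ m) (x : Fin ((sigF (SS 𝔹) σ m).ar s.1.1) → V) : Prop :=
  (∀ a, ty 𝔹 (x a) = tyI 𝔹 σ m s.1.1 a) ∧
    (∀ a b, x a = x b → a = b ∨ tyI 𝔹 σ m s.1.1 a ∈ B) ∧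
    ∀ (l : Fin ρ.m) (z : Fin (ρ.ar l) → Fin ((sigF (SS 𝔹) σ m).ar s.1.1)),
      (∀ i, tyI 𝔹 σ m s.1.1 (z i) ∉ B) → (𝔹 l (fun i => x (z i)) ↔ s.1.2 l z)

theorem tpe_cast {V : Type} {τ : Sig} {𝔽 : Str τ V} {i q : Fin τ.m} (hq : q = i)
    (h : τ.ar q = τ.ar i) (y : Fin (τ.ar i) → V) (hy : 𝔽 q (fun j => y (Fin.cast h j))) :
    𝔽 i y := by
  subst hq
  exact hy

theorem pf_TPE : T_TPE := by
  intro V σ ρ 𝔸 𝔹 m hT L hL n 𝕏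
  constructor
  · rintro ⟨f, hf⟩
    refine ⟨fun c z => NC 𝔹 σ m (Bl 𝔸 𝔹) c (fun i => f (z i)), ?_, ?_⟩
    · exact (hL (Fin n) _).2 ⟨f, fun c z hz => hz⟩
    · intro i z hz
      have h1 : fbI 𝔸 𝔹 m (Bl 𝔸 𝔹) i (fun j => f (z j)) := hf i z hz
      obtain ⟨s₀, hs₀⟩ : ∃ s₀ : CI 𝔹 σ m, s₀ = ⟨⟨i, fun (l : Fin ρ.m)
          (w : Fin (ρ.ar l) → Fin ((sigF (SS 𝔹) σ m).ar i)) => 𝔹 l (fun j => f (z (w j)))⟩,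
          h1.1⟩ := ⟨_, rfl⟩
      have h3 : ∀ s : CI 𝔹 σ m, s = s₀ →
          (s.1.1 = i ∧ ∃ x : Fin ((sigF (SS 𝔹) σ m).ar s.1.1) → V,
            fbI 𝔸 𝔹 m (Bl 𝔸 𝔹) s.1.1 x ∧ NCs 𝔹 σ m (Bl 𝔸 𝔹) s x) ∧
          ∃ h : (sigF (SS 𝔹) σ m).ar s.1.1 = (sigF (SS 𝔹) σ m).ar i,
            NCs 𝔹 σ m (Bl 𝔸 𝔹) s (fun j => f (z (Fin.cast h j))) := by
        rintro s rfl
        subst hs₀
        have h2 : NCs 𝔹 σ m (Bl 𝔸 𝔹) ⟨⟨i, fun (l : Fin ρ.m)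
            (w : Fin (ρ.ar l) → Fin ((sigF (SS 𝔹) σ m).ar i)) => 𝔹 l (fun j => f (z (w j)))⟩,
            h1.1⟩ (fun j => f (z j)) := ⟨h1.2.1, h1.2.2.1, fun l w _ => Iff.rfl⟩
        exact ⟨⟨rfl, _, h1, h2⟩, rfl, h2⟩
      have h4 := h3 (co 𝔹 σ m (Finite.equivFin (CI 𝔹 σ m) s₀)) (Equiv.symm_apply_apply _ _)
      exact ⟨Finite.equivFin (CI 𝔹 σ m) s₀, h4.1, h4.2⟩
  · rintro ⟨M, hM1, hM2⟩
    obtain ⟨f, hf⟩ := (hL (Fin n) M).1 hM1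
    refine ⟨f, fun i z hz => ?_⟩
    obtain ⟨c, ⟨hc, x, hx1, hx2⟩, h, hN⟩ := hM2 i z hz
    have h1 := hf c _ hN
    have h2 := hT c x _ hx1 hx2 h1
    exact tpe_cast hc h (fun j => f (z j)) h2

end Pool.Agent.H68.FB
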