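import Pool.Agent.H44.FB.Basics

/-!
# fbm_modules, row MIN: no type can be avoided
-/

set_option autoImplicit false

namespace Pool.Agent.H68.FB

open Pool.Agent.H68.BP Pool.Agent.H58.SF Pool.Agent.H53.NR
open Pool.Agent.H53.GC (arP relP strOn sigOf)
open Pool.Agent.H53.GR (Ps Dm)
open Pool.Agent.H53.GM (Connected Avoids Val Cols DmG)
open Pool.Agent.H53.GX (FmX)
open Pool.Agent.H57.AR (tp ty Ty)
open Pool.Agent.H57.EQ (Cx)
open Pool.Agent.H57.SO (fib sigF SF)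
open Pool.Agent.H57.LH (SS vs c0 Blind NCB Cor Prs tfL SyL)
open Pool.Agent.H44.KR Pool.Agent.H44.FB
open Function Classical

/-- a homomorphism which avoids a type -/
theorem min_hom {V : Type} {σ ρ : Sig} {𝔸 : Str σ V} {𝔹 : Str ρ V} (hV : Countable V)
    (ht : Tyi 𝔸 𝔹) (hC : CptC 𝔹) (s : Fin ρ.m → Prop)
    (h : ∀ W : Finset V, ∃ ψ, Loc 𝔸 W ψ ∧ ∀ w ∈ W, ty 𝔹 (ψ w) ≠ s) :
    ∃ g : V → V, IsHom 𝔸 𝔸 g ∧ ∀ v, ty 𝔹 (g v) ≠ s := by
  obtain ⟨f, _, hf⟩ := hC V ∅ id (fun Y F => Loc 𝔸 Y F ∧ ∀ y ∈ Y, ty 𝔹 (F y) ≠ s)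
    (fun Y => by
      obtain ⟨ψ, h1, h2⟩ := h Y
      exact ⟨ψ, ⟨h1, h2⟩, fun x hx => absurd hx (Finset.notMem_empty x)⟩)
    (fun Y Y' F hY hS => ⟨fun l z hz => hS.1 l z fun i => hY (hz i),
      fun y hy => hS.2 y (hY hy)⟩)
    (fun Y F F' hS hT => ⟨fun l z hz hA => tyi_on ht hT l z hz (hS.1 l z hz hA),
      fun y hy h3 => hS.2 y hy ((tpo_ty hT hy).trans h3)⟩)
  refine ⟨f, fun l x hx => ?_, fun v => (hf {v}).2 v (Finset.mem_singleton_self v)⟩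
  exact (hf (Finset.univ.image x)).1 l x
    (fun i => Finset.mem_image_of_mem x (Finset.mem_univ i)) hx

theorem pf_MIN : T_MIN := by
  intro V σ ρ 𝔸 𝔹 _ hV ht hP hC hR s hs
  by_contra hcon
  push Not at hcon
  obtain ⟨g, hg, hgs⟩ := min_hom hV ht hC s hcon
  obtain ⟨c, hc⟩ := hR Unit (Fin ρ.m → Prop) (fun a => ty 𝔹 (g (a ())))
  obtain ⟨γ, hγ⟩ : ∃ γ : (Fin ρ.m → Prop) → (Fin ρ.m → Prop),
      γ = fun t => c ((fun _ _ => True, fun l _ => t l), fun _ _ => False) := ⟨_, rfl⟩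
  -- the key property
  have key : ∀ (X : Type) [Finite X] (G : X → V) (rk : X → ℕ), Injective G → Injective rk →
      ∃ G' : X → V, tp 𝔹 G' = tp 𝔹 G ∧ ∀ x, ty 𝔹 (g (G' x)) = γ (ty 𝔹 (G x)) := by
    intro X _ G rk hG hrk
    obtain ⟨G', h1, h2⟩ := hc X G rk hG hrk
    refine ⟨G', h1, fun x => ?_⟩
    have h3 := h2 fun _ => x
    have h4 : tp 𝔹 (fun _ : Unit => G x) = (fun _ _ => True, fun l _ => ty 𝔹 (G x) l) := by
      refine Prod.ext ?_ ?_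
      · funext a b
        exact eq_true rfl
      · rfl
    have h5 : (fun _ _ : Unit => rk x < rk x) = fun _ _ => False := by
      funext _ _
      exact eq_false (lt_irrefl _)
    rw [h4, h5] at h3
    rw [hγ]
    exact h3
  -- `γ` is an action
  have hSb : Sb 𝔸 𝔹 γ := by
    intro W _ G
    obtain ⟨n, ⟨e⟩⟩ := Finite.exists_equiv_fin (Set.range G)
    obtain ⟨G', h1, h2⟩ := key (Set.range G) (fun x => x.1) (fun x => (e x : ℕ))
      Subtype.val_injective (fun x y hxy => e.injective (Fin.ext hxy))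
    refine ⟨fun w => g (G' ⟨G w, w, rfl⟩), fun l z hz => ?_, fun w => h2 ⟨G w, w, rfl⟩⟩
    apply hg l (fun a => G' ⟨G (z a), z a, rfl⟩)
    exact tyi_rel ht (x := fun x : Set.range G => x.1) (y := G') h1.symm l
      (fun a => ⟨G (z a), z a, rfl⟩) (hz ())
  -- it maps the set of the types to itself
  have hmap : Set.MapsTo γ (Rlz 𝔹) (Rlz 𝔹) := by
    rintro t ⟨x, rfl⟩
    obtain ⟨G', _, h2⟩ := key Unit (fun _ => x) (fun _ => 0) (fun _ _ _ => rfl) (fun _ _ _ => rfl)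
    exact ⟨g (G' ()), h2 ()⟩
  have hfin : (Rlz 𝔹).Finite := Set.toFinite _
  have hbij := (hfin.injOn_iff_bijOn_of_mapsTo hmap).1 (hP γ hSb)
  obtain ⟨t, ⟨x, rfl⟩, hts⟩ := hbij.surjOn hs
  obtain ⟨G', _, h2⟩ := key Unit (fun _ => x) (fun _ => 0) (fun _ _ _ => rfl) (fun _ _ _ => rfl)
  exact hgs (G' ()) ((h2 ()).trans hts)

end Pool.Agent.H68.FB
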